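import Pool.Agent.H98.EX.WTargets

/-!
# HFC: logarithmic convexity of the negative moments (MP_65efe8_pr), Hölder's inequality
-/

set_option autoImplicit false

open MeasureTheory ProbabilityTheory Filter Topology
open Pool.Agent.H95 Pool.Agent.H95.Cop Pool.Agent.H98.EX

namespace Pool.Agent.H77.EX

theorem VR_nonneg (n : ℕ) (y : ℕ → ℝ) : 0 ≤ VR n y :=
  Finset.sum_nonneg fun _ _ => (Real.exp_pos _).le

theorem measurable_VR (n : ℕ) : Measurable (VR n) := by
  unfold VR H
  refine Finset.measurable_fun_sum _ fun i _ => ?_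
  refine Real.measurable_exp.comp ?_
  refine Measurable.neg ?_
  exact Finset.measurable_fun_sum _ fun j _ => measurable_pi_apply j

theorem pow_le_one (n : ℕ) (y : ℕ → ℝ) {q : ℝ} (hq : 0 ≤ q) : (1 + VR n y) ^ (-q) ≤ 1 :=
  Real.rpow_le_one_of_one_le_of_nonpos (by linarith [VR_nonneg n y]) (by linarith)

theorem pow_nonneg' (n : ℕ) (y : ℕ → ℝ) (q : ℝ) : 0 ≤ (1 + VR n y) ^ q :=
  Real.rpow_nonneg (by linarith [VR_nonneg n y]) _

theorem memLp_pow (ϱ : Measure ℝ) [IsProbabilityMeasure ϱ] (n : ℕ) {q : ℝ} (hq : 0 ≤ q)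
    (p : ENNReal) : MemLp (fun y : ℕ → ℝ => (1 + VR n y) ^ (-q)) p (iid ϱ) := by
  refine MemLp.of_bound ?_ 1 ?_
  · exact ((measurable_const.add (measurable_VR n)).pow_const _).aestronglyMeasurable
  · refine Filter.Eventually.of_forall fun y => ?_
    rw [Real.norm_of_nonneg (pow_nonneg' n y _)]
    exact pow_le_one n y hq

theorem pf_HFC (_hWBA : T_WBA) : T_HFC := by
  intro ϱ _ n p1 p2 w hp1 hp2 hw0 hw1
  rcases hw0.eq_or_lt with h0 | h0
  · subst h0
    simp
  rcases hw1.eq_or_lt with h1 | h1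
  · subst h1
    simp
  have hw' : 0 < 1 - w := by linarith
  have hc : (1 / w).HolderConjugate (1 / (1 - w)) := by
    rw [Real.holderConjugate_iff]
    refine ⟨?_, ?_⟩
    · rw [lt_div_iff₀ h0]; linarith
    · rw [one_div, one_div, inv_inv, inv_inv]; ring
  have key := MeasureTheory.integral_mul_le_Lp_mul_Lq_of_nonneg (μ := iid ϱ) hc
    (f := fun y : ℕ → ℝ => (1 + VR n y) ^ (-(w * p1)))
    (g := fun y : ℕ → ℝ => (1 + VR n y) ^ (-((1 - w) * p2)))
    (Filter.Eventually.of_forall fun y => pow_nonneg' n y _)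
    (Filter.Eventually.of_forall fun y => pow_nonneg' n y _)
    (memLp_pow ϱ n (mul_nonneg hw0 hp1) _) (memLp_pow ϱ n (mul_nonneg hw'.le hp2) _)
  have e0 : hh ϱ n (w * p1 + (1 - w) * p2) =
      ∫ y : ℕ → ℝ, (1 + VR n y) ^ (-(w * p1)) * (1 + VR n y) ^ (-((1 - w) * p2)) ∂(iid ϱ) := by
    unfold hh
    refine integral_congr_ae (Filter.Eventually.of_forall fun y => ?_)
    have hy : 0 < 1 + VR n y := by linarith [VR_nonneg n y]
    simp only
    rw [← Real.rpow_add hy]
    congr 1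
    ring
  have e1 : ∫ y : ℕ → ℝ, ((1 + VR n y) ^ (-(w * p1))) ^ (1 / w) ∂(iid ϱ) = hh ϱ n p1 := by
    unfold hh
    refine integral_congr_ae (Filter.Eventually.of_forall fun y => ?_)
    have hy : 0 ≤ 1 + VR n y := by linarith [VR_nonneg n y]
    simp only
    rw [← Real.rpow_mul hy]
    congr 1
    field_simp
  have e2 : ∫ y : ℕ → ℝ, ((1 + VR n y) ^ (-((1 - w) * p2))) ^ (1 / (1 - w)) ∂(iid ϱ) =
      hh ϱ n p2 := by
    unfold hh
    refine integral_congr_ae (Filter.Eventually.of_forall fun y => ?_)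
    have hy : 0 ≤ 1 + VR n y := by linarith [VR_nonneg n y]
    simp only
    rw [← Real.rpow_mul hy]
    congr 1
    field_simp
  rw [e0]
  refine key.trans (le_of_eq ?_)
  rw [e1, e2, one_div_one_div, one_div_one_div]

end Pool.Agent.H77.EX
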