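import Pool.Agent.H98.EX.BTargets

/-!
# VI2: the induction over the cells for the chains with long excursions of two kinds (MP_65efe8_pr)
-/

set_option autoImplicit false

open MeasureTheory ProbabilityTheory Filter Topology
open scoped ENNReal
open Pool.Agent.H95 Pool.Agent.H95.Cop Pool.Agent.H96.Cop Pool.Agent.H99.CE Pool.Agent.H98.EX

namespace Pool.Agent.H77.EX

lemma sub_sum {φ : ℝ≥0∞ → ℝ≥0∞} (h0 : φ 0 = 0) (hs : ∀ x y, φ (x + y) ≤ φ x + φ y)
    {ι : Type*} (s : Finset ι) (f : ι → ℝ≥0∞) : φ (∑ i ∈ s, f i) ≤ ∑ i ∈ s, φ (f i) := by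
  classical
  induction s using Finset.induction_on with
  | empty => simp [h0]
  | insert i s hi ih =>
    rw [Finset.sum_insert hi, Finset.sum_insert hi]
    exact (hs _ _).trans (add_le_add le_rfl ih)

lemma sum_TT (n0 J : ℕ) (f : ℕ → ℝ≥0∞) :
    ∑ j ∈ Finset.range J, ∑ c ∈ TT n0 j, f c = ∑ c ∈ Finset.range (J * n0), f c := by
  induction J with
  | zero => simp
  | succ J ih =>
    rw [Finset.sum_range_succ, ih]
    unfold TT
    rw [Finset.range_eq_Ico, Finset.range_eq_Ico]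
    exact Finset.sum_Ico_consecutive f (Nat.zero_le _) (Nat.mul_le_mul_right _ (Nat.le_succ _))

lemma sum_ge (L a : ℕ) (F : ℕ → ℝ≥0∞) :
    ∑ c ∈ Finset.range L, (if a ≤ c then F (c - a) else 0) ≤ ∑ c ∈ Finset.range L, F c := by
  rcases le_total L a with h | h
  · refine (Finset.sum_le_sum (g := fun c => F c) fun c hc => ?_)
    rw [Finset.mem_range] at hc
    rw [if_neg (by omega)]
    exact bot_le
  · obtain ⟨m, rfl⟩ := Nat.exists_eq_add_of_le h
    rw [Finset.sum_range_add]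
    have h1 : ∑ c ∈ Finset.range a, (if a ≤ c then F (c - a) else 0) = 0 := by
      refine Finset.sum_eq_zero fun c hc => ?_
      rw [Finset.mem_range] at hc
      rw [if_neg (by omega)]
    rw [h1, zero_add]
    have h2 : ∑ x ∈ Finset.range m, (if a ≤ a + x then F (a + x - a) else 0) =
        ∑ x ∈ Finset.range m, F x := by
      refine Finset.sum_congr rfl fun x _ => ?_
      rw [if_pos (Nat.le_add_right _ _), Nat.add_sub_cancel_left]
    rw [h2]
    exact Finset.sum_le_sum_of_subset (Finset.range_mono (Nat.le_add_left _ _))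

/-- One kind of long excursions, summed over the boxes. -/
lemma exc (hIND : T_IND) (ν : Measure ℝ) [IsProbabilityMeasure ν] {φ : ℝ≥0∞ → ℝ≥0∞}
    (hmeas : Measurable φ) {J B : ℕ} {Y : (ℕ → ℝ) → ℝ≥0∞} (hY : Measurable Y) (hYd : DepLt B Y)
    (hYf : ∀ x, Y x ≠ ∞) {W : ℕ → (ℕ → ℝ) → ℝ≥0∞} (hW : ∀ j < J, Measurable (W j)) {θ : ℝ}
    (hθ : 0 ≤ θ) {u : ℝ≥0∞ → ℝ≥0∞} (hum : Measurable u) {v w z : ℝ≥0∞} (hz : z ≠ ∞)
    (hu : ∀ y, y ≠ ∞ → u (z * y) ≤ u z + u y)
    (IH : ∀ z', z' ≠ ∞ → ∑ j ∈ Finset.range J, ∫⁻ y, φ (z' * W j y) ∂(iid ν) ≤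
      z' ^ θ * (u z' * v + w)) :
    ∑ j ∈ Finset.range J, ∫⁻ x, φ (z * (Y x * W j (shift B x))) ∂(iid ν) ≤
      z ^ θ * ((∫⁻ x, Y x ^ θ ∂(iid ν)) * (u z * v + w) +
        (∫⁻ x, Y x ^ θ * u (Y x) ∂(iid ν)) * v) := by
  have e1 : ∀ j ∈ Finset.range J, ∫⁻ x, φ (z * (Y x * W j (shift B x))) ∂(iid ν) =
      ∫⁻ x, (∫⁻ y, φ (z * (Y x * W j y)) ∂(iid ν)) ∂(iid ν) := by
    intro j hj
    exact (hIND ν B Y (fun q => φ (z * (q.1 * W j q.2))) hY hYd
      (hmeas.comp (measurable_const.mul (measurable_fst.mul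
        ((hW j (Finset.mem_range.1 hj)).comp measurable_snd))))).1
  have hin : ∀ j ∈ Finset.range J, Measurable (fun x : ℕ → ℝ =>
      ∫⁻ y, φ (z * (Y x * W j y)) ∂(iid ν)) := by
    intro j hj
    have h1 : Measurable (fun q : (ℕ → ℝ) × (ℕ → ℝ) => φ (z * (Y q.1 * W j q.2))) :=
      hmeas.comp (measurable_const.mul ((hY.comp measurable_fst).mul
        ((hW j (Finset.mem_range.1 hj)).comp measurable_snd)))
    exact h1.lintegral_prod_right'
  rw [Finset.sum_congr rfl e1, ← lintegral_finsetSum' _ fun j hj => (hin j hj).aemeasurable]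
  have hpt : ∀ x : ℕ → ℝ, ∑ j ∈ Finset.range J, ∫⁻ y, φ (z * (Y x * W j y)) ∂(iid ν) ≤
      z ^ θ * (Y x ^ θ * (u z * v + w) + (Y x ^ θ * u (Y x)) * v) := by
    intro x
    have h1 := IH (z * Y x) (ENNReal.mul_ne_top hz (hYf x))
    have h2 : ∑ j ∈ Finset.range J, ∫⁻ y, φ (z * (Y x * W j y)) ∂(iid ν) =
        ∑ j ∈ Finset.range J, ∫⁻ y, φ (z * Y x * W j y) ∂(iid ν) := by
      refine Finset.sum_congr rfl fun j _ => lintegral_congr fun y => ?_
      rw [mul_assoc]
    rw [h2]
    refine h1.trans ?_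
    rw [ENNReal.mul_rpow_of_nonneg _ _ hθ, mul_assoc]
    refine mul_le_mul' le_rfl ?_
    calc Y x ^ θ * (u (z * Y x) * v + w) ≤ Y x ^ θ * ((u z + u (Y x)) * v + w) :=
          mul_le_mul' le_rfl (add_le_add (mul_le_mul' (hu _ (hYf x)) le_rfl) le_rfl)
      _ = _ := by ring
  refine (lintegral_mono hpt).trans (le_of_eq ?_)
  have hme : Measurable (fun x : ℕ → ℝ => Y x ^ θ) := hY.pow_const _
  have hme2 : Measurable (fun x : ℕ → ℝ => Y x ^ θ * u (Y x)) := hme.mul (hum.comp hY)
  have hm1 : Measurable (fun x : ℕ → ℝ => Y x ^ θ * (u z * v + w) + (Y x ^ θ * u (Y x)) * v) :=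
    (hme.mul_const _).add (hme2.mul_const _)
  rw [lintegral_const_mul _ hm1, lintegral_add_left (hme.mul_const _),
    lintegral_mul_const _ hme, lintegral_mul_const _ hme2]

lemma dsum (L p : ℕ) (a : ℕ → ℕ → ℝ≥0∞) :
    ∑ i ∈ Finset.range (L - p), ∑ D ∈ Finset.Icc 1 (L - 1 - p - i), a i D ≤
      ∑ i ∈ Finset.range L, ∑ D ∈ Finset.Icc 1 L, a i D := by
  refine (Finset.sum_le_sum fun i _ => ?_).trans
    (Finset.sum_le_sum_of_subset (Finset.range_mono (Nat.sub_le L p)))
  refine Finset.sum_le_sum_of_subset (Finset.Icc_subset_Icc le_rfl ?_)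
  omega

theorem pf_VI2 (hCCP : Pool.Agent.H99.CE.T_CCP) (hIND : Pool.Agent.H99.CE.T_IND) : T_VI2 := by
  intro ν _ k n0 J N ga gb V φ θ u un Es Eu qq qu v w hB p a ha z hz
  obtain ⟨hmono, hmeas, hsub, -, -, -⟩ := hCCP φ hB.cc
  have h0 : φ 0 = 0 := hB.cc.1
  obtain ⟨L, hL⟩ : ∃ L, L = J * n0 := ⟨_, rfl⟩
  rw [← hL] at ha
  suffices H : ∀ n a, a < L → L - a = n → ∀ p z, z ≠ ∞ →
      ∑ j ∈ Finset.range J, ∫⁻ x, φ (z * V j p a x) ∂(iid ν) ≤ z ^ θ * (u z * v + w) by
    exact H _ a ha rfl p z hz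
  clear hz z p ha a
  intro n
  induction n using Nat.strong_induction_on with
  | _ n ih =>
  intro a ha hn p z hz
  have IH : ∀ a', a < a' → a' < L → ∀ p z, z ≠ ∞ → ∑ j ∈ Finset.range J,
      ∫⁻ x, φ (z * V j p a' x) ∂(iid ν) ≤ z ^ θ * (u z * v + w) :=
    fun a' h1 h2 p z hz => ih (L - a') (by omega) a' h2 rfl p z hz
  have hNm : ∀ p r i, 0 < J → Measurable (N p r i) := fun p r i hJ => ((hB.ch 0 hJ).mN p r i).1
  -- the terms
  let Y1 : ℕ → ℕ → (ℕ → ℝ) → ℝ≥0∞ := fun i D x => N p false i x * ga D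
  let Y2 : ℕ → ℕ → (ℕ → ℝ) → ℝ≥0∞ := fun i D x =>
    N p true i x * (gb D * ex ((i + 1) * k) ((i + D) * k) x)
  rcases Nat.eq_zero_or_pos J with hJ0 | hJ
  · subst hJ0
    simp
  have hY1 : ∀ i D, Measurable (Y1 i D) := fun i D => (hNm _ _ _ hJ).mul_const _
  have hY2 : ∀ i D, Measurable (Y2 i D) := fun i D =>
    (hNm _ _ _ hJ).mul ((measurable_ex _ _).const_mul _)
  have hYf1 : ∀ i D x, Y1 i D x ≠ ∞ := fun i D x =>
    ENNReal.mul_ne_top (((hB.ch 0 hJ).mN p false i).2.2 x) (hB.fa D)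
  have hYf2 : ∀ i D x, Y2 i D x ≠ ∞ := fun i D x =>
    ENNReal.mul_ne_top (((hB.ch 0 hJ).mN p true i).2.2 x)
      (ENNReal.mul_ne_top (hB.fb D) ENNReal.ofReal_ne_top)
  have hYd1 : ∀ i D, 1 ≤ D → DepLt ((i + D) * k) (Y1 i D) := by
    intro i D hD
    have h1 : DepLt ((i + D) * k) (N p false i) :=
      ((hB.ch 0 hJ).mN p false i).2.1.mono (Nat.mul_le_mul_right _ (by omega))
    intro x y hxy
    show N p false i x * ga D = N p false i y * ga D
    rw [h1 x y hxy]
  have hYd2 : ∀ i D, 1 ≤ D → DepLt ((i + D) * k) (Y2 i D) := by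
    intro i D hD
    have h1 : DepLt ((i + D) * k) (N p true i) :=
      ((hB.ch 0 hJ).mN p true i).2.1.mono (Nat.mul_le_mul_right _ (by omega))
    have h2 : DepLt ((i + D) * k) (ex ((i + 1) * k) ((i + D) * k)) := ex_dep _ _
    intro x y hxy
    show N p true i x * (gb D * ex ((i + 1) * k) ((i + D) * k) x) =
      N p true i y * (gb D * ex ((i + 1) * k) ((i + D) * k) y)
    rw [h1 x y hxy, h2 x y hxy]
  have hj : ∀ j ∈ Finset.range J, ∫⁻ x, φ (z * V j p a x) ∂(iid ν) ≤
      ∑ c ∈ TT n0 j, ∫⁻ x, φ (z * (if a ≤ c then N p false (c - a) x else 0)) ∂(iid ν) +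
      ∑ i ∈ Finset.range (L - a), ∑ D ∈ Finset.Icc 1 (L - 1 - a - i),
        (∫⁻ x, φ (z * (Y1 i D x * V j false (a + i + D) (shift ((i + D) * k) x))) ∂(iid ν) +
          ∫⁻ x, φ (z * (Y2 i D x * V j true (a + i + D) (shift ((i + D) * k) x))) ∂(iid ν)) := by
    intro j hj
    have hch := hB.ch j (Finset.mem_range.1 hj)
    rw [← hL] at hch
    have hpt : ∀ x, φ (z * V j p a x) ≤
        ∑ c ∈ TT n0 j, φ (z * (if a ≤ c then N p false (c - a) x else 0)) +
        ∑ i ∈ Finset.range (L - a), ∑ D ∈ Finset.Icc 1 (L - 1 - a - i),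
          (φ (z * (Y1 i D x * V j false (a + i + D) (shift ((i + D) * k) x))) +
            φ (z * (Y2 i D x * V j true (a + i + D) (shift ((i + D) * k) x)))) := by
      intro x
      refine (hmono (mul_le_mul' le_rfl (hch.recV p a ha x))).trans ?_
      rw [mul_add]
      refine (hsub _ _).trans (add_le_add ?_ ?_)
      · rw [Finset.mul_sum]
        exact sub_sum h0 hsub _ _
      · rw [Finset.mul_sum]
        refine (sub_sum h0 hsub _ _).trans (Finset.sum_le_sum fun i _ => ?_)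
        rw [Finset.mul_sum]
        refine (sub_sum h0 hsub _ _).trans (Finset.sum_le_sum fun D _ => ?_)
        rw [mul_add]
        refine (hsub _ _).trans (add_le_add (le_of_eq ?_) (le_of_eq ?_))
        · congr 1
          show z * (N p false i x * (ga D * _)) = z * (N p false i x * ga D * _)
          ring
        · congr 1
          show z * (N p true i x * (gb D * ex ((i + 1) * k) ((i + D) * k) x * _)) =
            z * (N p true i x * (gb D * ex ((i + 1) * k) ((i + D) * k) x) * _)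
          ring
    have hmc : ∀ c, Measurable (fun x => φ (z * (if a ≤ c then N p false (c - a) x else 0))) := by
      intro c
      refine hmeas.comp (measurable_const.mul ?_)
      by_cases hc : a ≤ c
      · simp only [hc, if_true]
        exact hNm _ _ _ hJ
      · simp only [hc, if_false]
        exact measurable_const
    have hm1 : ∀ i D, Measurable (fun x =>
        φ (z * (Y1 i D x * V j false (a + i + D) (shift ((i + D) * k) x)))) := fun i D =>
      hmeas.comp (measurable_const.mul ((hY1 i D).mul ((hch.mV _ _).comp (measurable_shift _))))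
    have hm2 : ∀ i D, Measurable (fun x =>
        φ (z * (Y2 i D x * V j true (a + i + D) (shift ((i + D) * k) x)))) := fun i D =>
      hmeas.comp (measurable_const.mul ((hY2 i D).mul ((hch.mV _ _).comp (measurable_shift _))))
    have hm12 : ∀ i D, Measurable (fun x =>
        φ (z * (Y1 i D x * V j false (a + i + D) (shift ((i + D) * k) x))) +
        φ (z * (Y2 i D x * V j true (a + i + D) (shift ((i + D) * k) x)))) := fun i D =>
      (hm1 i D).add (hm2 i D)
    refine (lintegral_mono hpt).trans (le_of_eq ?_)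
    rw [lintegral_add_left (Finset.measurable_fun_sum _ fun c _ => hmc c),
      lintegral_finsetSum _ fun c _ => hmc c,
      lintegral_finsetSum _ fun i _ => Finset.measurable_fun_sum _ fun D _ => hm12 i D]
    congr 1
    refine Finset.sum_congr rfl fun i _ => ?_
    rw [lintegral_finsetSum _ fun D _ => hm12 i D]
    refine Finset.sum_congr rfl fun D _ => ?_
    exact lintegral_add_left (hm1 i D) _
  refine (Finset.sum_le_sum hj).trans ?_
  rw [Finset.sum_add_distrib, sum_TT, ← hL]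
  -- the ends
  have h2 : ∑ c ∈ Finset.range L,
      ∫⁻ x, φ (z * (if a ≤ c then N p false (c - a) x else 0)) ∂(iid ν) ≤
      z ^ θ * (u z * Es + Eu) := by
    let F : ℕ → ℝ≥0∞ := fun c => z ^ θ * (u z * ∫⁻ x, N p false c x ^ θ ∂(iid ν) +
      ∫⁻ x, N p false c x ^ θ * un (N p false c x) ∂(iid ν))
    have h3 : ∀ c ∈ Finset.range L,
        ∫⁻ x, φ (z * (if a ≤ c then N p false (c - a) x else 0)) ∂(iid ν) ≤
        (if a ≤ c then F (c - a) else 0) := by
      intro c _
      by_cases hc : a ≤ c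
      · simp only [hc, if_true]
        have hNf : ∀ x, N p false (c - a) x ≠ ∞ := ((hB.ch 0 hJ).mN p false (c - a)).2.2
        have hmN := hNm p false (c - a) hJ
        have h4 : ∀ x, φ (z * N p false (c - a) x) ≤
            z ^ θ * (u z * N p false (c - a) x ^ θ +
              N p false (c - a) x ^ θ * un (N p false (c - a) x)) := by
          intro x
          refine (hB.hφ z _ hz (hNf x)).trans (le_of_eq ?_)
          rw [ENNReal.mul_rpow_of_nonneg _ _ hB.θ0.le]
          ring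
        refine (lintegral_mono h4).trans (le_of_eq ?_)
        have hm1 : Measurable (fun x => N p false (c - a) x ^ θ) := hmN.pow_const _
        have hm2 : Measurable (fun x => N p false (c - a) x ^ θ * un (N p false (c - a) x)) :=
          hm1.mul (hB.mun.comp hmN)
        have hm3 : Measurable (fun x => u z * N p false (c - a) x ^ θ +
            N p false (c - a) x ^ θ * un (N p false (c - a) x)) := (hm1.const_mul _).add hm2
        rw [lintegral_const_mul _ hm3, lintegral_add_left (hm1.const_mul _),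
          lintegral_const_mul _ hm1]
      · simp only [hc, if_false, mul_zero, h0, lintegral_zero]
        exact le_rfl
    refine (Finset.sum_le_sum h3).trans ((sum_ge L a F).trans ?_)
    simp only [F]
    rw [← Finset.mul_sum, Finset.sum_add_distrib, ← Finset.mul_sum]
    refine mul_le_mul' le_rfl (add_le_add (mul_le_mul' le_rfl ?_) ?_)
    · rw [hL]
      exact hB.hE p
    · rw [hL]
      exact hB.hEu p
  -- the excursions
  have h3 : ∑ j ∈ Finset.range J, ∑ i ∈ Finset.range (L - a),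
      ∑ D ∈ Finset.Icc 1 (L - 1 - a - i),
        (∫⁻ x, φ (z * (Y1 i D x * V j false (a + i + D) (shift ((i + D) * k) x))) ∂(iid ν) +
          ∫⁻ x, φ (z * (Y2 i D x * V j true (a + i + D) (shift ((i + D) * k) x))) ∂(iid ν)) ≤
      z ^ θ * (qq * (u z * v + w) + qu * v) := by
    have e1 : ∑ j ∈ Finset.range J, ∑ i ∈ Finset.range (L - a),
        ∑ D ∈ Finset.Icc 1 (L - 1 - a - i),
        (∫⁻ x, φ (z * (Y1 i D x * V j false (a + i + D) (shift ((i + D) * k) x))) ∂(iid ν) +
          ∫⁻ x, φ (z * (Y2 i D x * V j true (a + i + D) (shift ((i + D) * k) x))) ∂(iid ν)) =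
        ∑ i ∈ Finset.range (L - a), ∑ D ∈ Finset.Icc 1 (L - 1 - a - i),
        (∑ j ∈ Finset.range J,
          ∫⁻ x, φ (z * (Y1 i D x * V j false (a + i + D) (shift ((i + D) * k) x))) ∂(iid ν) +
          ∑ j ∈ Finset.range J,
          ∫⁻ x, φ (z * (Y2 i D x * V j true (a + i + D) (shift ((i + D) * k) x))) ∂(iid ν)) := by
      rw [Finset.sum_comm]
      refine Finset.sum_congr rfl fun i _ => ?_
      rw [Finset.sum_comm]
      refine Finset.sum_congr rfl fun D _ => ?_
      exact Finset.sum_add_distrib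
    rw [e1]
    have h4 : ∀ i ∈ Finset.range (L - a), ∀ D ∈ Finset.Icc 1 (L - 1 - a - i),
        (∑ j ∈ Finset.range J,
          ∫⁻ x, φ (z * (Y1 i D x * V j false (a + i + D) (shift ((i + D) * k) x))) ∂(iid ν) +
          ∑ j ∈ Finset.range J,
          ∫⁻ x, φ (z * (Y2 i D x * V j true (a + i + D) (shift ((i + D) * k) x))) ∂(iid ν)) ≤
        z ^ θ * ((∫⁻ x, Y1 i D x ^ θ ∂(iid ν) + ∫⁻ x, Y2 i D x ^ θ ∂(iid ν)) * (u z * v + w) +
          (∫⁻ x, Y1 i D x ^ θ * u (Y1 i D x) ∂(iid ν) +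
            ∫⁻ x, Y2 i D x ^ θ * u (Y2 i D x) ∂(iid ν)) * v) := by
      intro i hi D hD
      rw [Finset.mem_range] at hi
      rw [Finset.mem_Icc] at hD
      have hVm : ∀ r, ∀ j < J, Measurable (V j r (a + i + D)) :=
        fun r j hj => (hB.ch j hj).mV r (a + i + D)
      have c1 := exc hIND ν hmeas (J := J) (B := (i + D) * k) (hY1 i D) (hYd1 i D hD.1)
        (hYf1 i D) (W := fun j => V j false (a + i + D)) (hVm false) hB.θ0.le hB.mu (v := v)
        (w := w) hz (fun y hy => hB.hu z y hz hy) (IH (a + i + D) (by omega) (by omega) false)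
      have c2 := exc hIND ν hmeas (J := J) (B := (i + D) * k) (hY2 i D) (hYd2 i D hD.1)
        (hYf2 i D) (W := fun j => V j true (a + i + D)) (hVm true) hB.θ0.le hB.mu (v := v)
        (w := w) hz (fun y hy => hB.hu z y hz hy) (IH (a + i + D) (by omega) (by omega) true)
      refine (add_le_add c1 c2).trans (le_of_eq ?_)
      ring
    refine (Finset.sum_le_sum fun i hi => Finset.sum_le_sum fun D hD => h4 i hi D hD).trans ?_
    have h5 := (dsum L a fun i D => ∫⁻ x, Y1 i D x ^ θ ∂(iid ν) + ∫⁻ x, Y2 i D x ^ θ ∂(iid ν))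
    have h6 := (dsum L a fun i D => ∫⁻ x, Y1 i D x ^ θ * u (Y1 i D x) ∂(iid ν) +
      ∫⁻ x, Y2 i D x ^ θ * u (Y2 i D x) ∂(iid ν))
    rw [hL] at h5 h6
    have h7 := h5.trans (hB.hq p)
    have h8 := h6.trans (hB.hqu p)
    rw [← hL] at h7 h8
    refine le_trans (le_of_eq ?_) (mul_le_mul' (le_refl (z ^ θ)) (add_le_add
      (mul_le_mul' h7 (le_refl (u z * v + w))) (mul_le_mul' h8 (le_refl v))))
    simp only [← Finset.mul_sum]
    congr 1
    rw [Finset.sum_mul, Finset.sum_mul, ← Finset.sum_add_distrib]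
    refine Finset.sum_congr rfl fun i _ => ?_
    rw [Finset.sum_mul, Finset.sum_mul, ← Finset.sum_add_distrib]
  refine (add_le_add h2 h3).trans ?_
  rw [← mul_add]
  refine mul_le_mul' le_rfl ?_
  calc u z * Es + Eu + (qq * (u z * v + w) + qu * v)
      = u z * (Es + qq * v) + (Eu + qu * v + qq * w) := by ring
    _ ≤ u z * v + w := add_le_add (mul_le_mul' le_rfl hB.hv) hB.hw

end Pool.Agent.H77.EX
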